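import Pool.Agent.T2h95.BB.Main

/-!
# A Bloch–Beilinson filtration exists if and only if it exists one Chow group at a time

Let `𝒱` be a class of smooth projective varieties over a field, closed under products (for example
all smooth projective complex varieties), with Chow groups `CH^j` (rational coefficients), a Weil
cohomology theory `W` and Abel–Jacobi maps `A`. For a variety `Z` and a number `J` let `I_m` be the
ideal of the self-correspondences of degree zero of `Z` which act as zero on `H^m(Z)`, and let
`ker(AJ)` be the kernel of the Abel–Jacobi map in `CH^J(Z)`.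

Let `𝒟` be a set of pairs `(Z, J)` which is dominating: for each variety `X` there is `(Z, J)` in `𝒟`
with `J ≥ dim X` such that `X`, shifted by any `s ≤ J`, is a factor of `Z`. For example all pairs
`(X × X, dim X)`, and so also all pairs `(Z, n)` with `dim Z = 2 n`. The following are equivalent:

1. there is a Bloch–Beilinson filtration on the Chow groups of all varieties in `𝒱` (with
   `F^0 = CH^j`, `F^1 = CH^j_hom`, `F^2 = ker(AJ)`, `F^(j+1) = 0`, stable under all correspondences,
   and such that a correspondence which acts as zero on `H^(2 j - ν)` acts as zero on `gr^ν CH^j`);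
2. for each `(Z, J)` in `𝒟` there is a Bloch–Beilinson filtration on the Chow groups of the single
   variety `Z`, with respect to the self-correspondences of `Z`;
3. for each `(Z, J)` in `𝒟` and each finite set `T` of self-correspondences of `Z` there are subspaces
   `F^2, F^3, …` of the single group `CH^J(Z)`, where `F^2` contains `ker(AJ)`, such that elements of
   `T` of degree zero which act as zero on `H^(2 J - ν)(Z)` map `F^ν` to `F^(ν+1)`, and elements of
   `T` of degree `-r ≤ 0` map `F^ν` to zero if `ν + r > J`;
4. for each `(Z, J)` in `𝒟` and all `n` and `r` with `n + 2 + r > J` the self-correspondences of `Z` of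
   degree `-r` act as zero on `I_(2 J - n - 1) ⋯ I_(2 J - 3) I_(2 J - 2) ker(AJ)` (`n` factors).

So no compatibility between different varieties, and none between the groups `CH^J(Z)` for different
`J`, has to be checked, and only finitely many correspondences have to be considered at a time.
-/

open Pool.Agent.H914 Pool.Agent.H914.VarClass Pool.Agent.H914.VarClass.Obj
open Pool.Agent.R903 Pool.Agent.T2h95.BB

universe u v w t

namespace Pool.Agent.Results.MP_08891c_ag.OneGroupAtATime

/-- **Bloch–Beilinson filtrations exist if and only if they exist one Chow group at a time.** -/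
theorem result {k : Type u} [Field k] {𝒱 : VarClass k} {C : ChowTheory.{u, v} 𝒱}
    {W : WeilTheory.{u, v, w} C} (A : AbelJacobi.{u, v, w, t} W) (hP : C.Polarized) :
    IsDominating C (Set.range fun X : 𝒱.Obj => (X.prod X, X.dim)) ∧
    ∀ 𝒟 : Set (𝒱.Obj × ℕ), IsDominating C 𝒟 → List.TFAE [
      ∃ F, IsBB A Set.univ F,
      ∀ p ∈ 𝒟, ∃ F, IsBB A {p.1} F,
      ∀ p ∈ 𝒟, ∀ T : Set (C.CH (p.1.prod p.1)), T.Finite → ∃ F, IsWeak A p.1 p.2 T F,
      ∀ p ∈ 𝒟, Criterion A p.1 p.2] :=
  ⟨isDominating_square hP, fun _ hD => tfae A hP hD⟩

end Pool.Agent.Results.MP_08891c_ag.OneGroupAtATime
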