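import Pool.Agent.T2h95.OC.All3

/-!
# The KLS inequality for log-concave variables conditioned on a partial order

Let `ν` be a probability law on the line without atoms, `R` a partial order on `Fin n` and `μ` the
law of `n` independent variables with law `ν` conditioned on `x_i ≤ x_j` for all `i, j` with `R i j`.
Then `μ` satisfies the Poincare inequality with exactly the same constants as `ν`. If `ν` is
log-concave then `μ` satisfies the KLS inequality (Poincare form) with the absolute constant `48`.

Method. (1) The minimiser of the Rayleigh quotient of `ν` at its `N`-quantiles gives rates for a chain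
of exchanges of labels at neighbouring quantiles to which the path coupling behind `OrderPolytopes`
(modules `R972.OP` of the starting files, `S_LAT`) applies; (2) limit `N → ∞` in quantile
coordinates; (3) symmetric functions have the same means for `μ` and `ν^n`, so `∑ g(x_i)` gives the
converse and the variance in the direction `(1, ..., 1)`; (4) for log-concave `ν` the Poincare constant
is at most `48` times the variance (Hardy's inequality at the median).

Parts by helpers 2, 9, 21, 26, 33, 49, 56, 58, 97 and 95 (modules `T2h95.OC`).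
-/

set_option autoImplicit false

namespace Pool.Agent.Results.MP_8d00da_gt.OrderConditioning

open MeasureTheory Set
open scoped ENNReal

/-- Euclidean space of dimension `n` -/
abbrev Euc (n : ℕ) : Type := EuclideanSpace ℝ (Fin n)

/-- Poincare inequality with constant `C`: `Var_μ f ≤ C ∫ |∇f|² dμ` for all `C¹` functions `f` such
that `f` and `|∇f|` are square integrable -/
def Poincare {E : Type} [NormedAddCommGroup E] [NormedSpace ℝ E] [MeasurableSpace E]
    (μ : Measure E) (C : ℝ) : Prop :=
  ∀ f : E → ℝ, ContDiff ℝ 1 f → MemLp f 2 μ → MemLp (fun x => ‖fderiv ℝ f x‖) 2 μ →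
    ProbabilityTheory.variance f μ ≤ C * ∫ x, ‖fderiv ℝ f x‖ ^ 2 ∂μ

/-- the law of `n` independent variables with law `ν` conditioned on `x_i ≤ x_j` for `R i j` -/
noncomputable def ordered {n : ℕ} (ν : Measure ℝ) (R : Fin n → Fin n → Prop) : Measure (Euc n) :=
  ProbabilityTheory.cond ((Measure.pi fun _ : Fin n => ν).map (WithLp.toLp 2))
    {x : Euc n | ∀ i j, R i j → x i ≤ x j}

/-- log-concave probability density on the line -/
structure LogConcaveDensity (ρ : ℝ → ℝ) : Prop where
  nonneg : ∀ x, 0 ≤ ρ x
  meas : Measurable ρ
  logconcave : ∀ x y t : ℝ, 0 < t → t < 1 → ρ x ^ (1 - t) * ρ y ^ t ≤ ρ ((1 - t) * x + t * y)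
  one : ∫⁻ x, ENNReal.ofReal (ρ x) = 1

/-- the law with density `ρ` -/
noncomputable def law (ρ : ℝ → ℝ) : Measure ℝ := volume.withDensity fun x => ENNReal.ofReal (ρ x)

/-- **Order-conditioned products.** Let `n ≥ 1` and let `R` be a partial order on `n` points
(reflexive or strict: only antisymmetry and transitivity are assumed).
(1) For every probability law `ν` on the line without atoms, the law `ordered ν R` is a probability
law, it satisfies the Poincare inequality with constant `C` if and only if `ν` does, and
if `ν` has a second moment then the variance of the sum of the coordinates is `n Var ν`.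
(2) KLS: if `ν` has a log-concave density and `s` is an upper bound of the variances of
`⟪x, θ⟫`, `|θ| = 1`, for `ordered ν R` then `ordered ν R` satisfies the Poincare inequality with
constant `48 s`. -/
theorem result : ∀ (n : ℕ) (R : Fin n → Fin n → Prop), 1 ≤ n →
    (∀ a b, R a b → R b a → a = b) → (∀ a b c, R a b → R b c → R a c) →
    (∀ ν : Measure ℝ, IsProbabilityMeasure ν → (∀ x, ν {x} = 0) →
      IsProbabilityMeasure (ordered ν R) ∧ (∀ C : ℝ, Poincare (ordered ν R) C ↔ Poincare ν C) ∧
      (MemLp (fun x : ℝ => x) 2 ν →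
        ProbabilityTheory.variance (fun x : Euc n => ∑ i, x i) (ordered ν R) =
          n * ProbabilityTheory.variance (fun x : ℝ => x) ν)) ∧
    ∀ ρ : ℝ → ℝ, LogConcaveDensity ρ → ∀ s : ℝ,
      (∀ θ : Euc n, ‖θ‖ = 1 →
        ProbabilityTheory.variance (fun x : Euc n => inner ℝ x θ) (ordered (law ρ) R) ≤ s) →
      Poincare (ordered (law ρ) R) (48 * s) := by
  intro n R hn hanti htr
  refine ⟨fun ν hν hat => ?_, fun ρ hρ s hs => ?_⟩
  · haveI : IsProbabilityMeasure ν := hν
    haveI : NullSingletonClass ν := ⟨hat⟩
    have hpos := Pool.Agent.T2h95.OC.t_POS n ν R hanti htr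
    refine ⟨(Pool.Agent.T2h95.OC.t_OCI n ν R hpos).1, fun C => ⟨fun h => ?_, fun h => ?_⟩,
      fun h => ?_⟩
    · exact Pool.Agent.T2h95.OC.cnv_all ν n R C hn hpos h
    · exact Pool.Agent.T2h95.OC.dir_all ν n R C hpos h
    · exact (Pool.Agent.T2h95.OC.ssm_all ν n R hpos (fun x => x) continuous_id h).2
  · have hρ' : Pool.Agent.T2h95.OC.LCD ρ := ⟨hρ.nonneg, hρ.meas, hρ.logconcave, hρ.one⟩
    haveI : IsProbabilityMeasure (Pool.Agent.T2h95.OC.law ρ) := (Pool.Agent.T2h95.OC.lc_all ρ hρ').1
    have hpos := Pool.Agent.T2h95.OC.t_POS n (Pool.Agent.T2h95.OC.law ρ) R hanti htr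
    exact Pool.Agent.T2h95.OC.kld_all ρ hρ' n R hn hpos s hs

end Pool.Agent.Results.MP_8d00da_gt.OrderConditioning
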