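import Pool.Agent.T2h95.CMO.Main

set_option autoImplicit false
open Filter Topology
open Pool.Agent.T2h95.CMO

namespace Pool.Agent.T2h95.Kept.PowerSaving

/-- For every CMO function `f` there is `δ > 0` such that `S_f(x)` is not `O(x^{-1+δ})`. -/
theorem result :
    ∀ f : ℕ → ℂ,
      f 1 = 1 →
      (∀ m n : ℕ, 0 < m → 0 < n → f (m * n) = f m * f n) →
      Tendsto (fun N : ℕ => ∑ n ∈ Finset.range N, f (n + 1)) atTop (𝓝 0) →
      ∃ δ : ℝ, 0 < δ ∧ ∀ (C : ℝ) (M : ℕ), ∃ N : ℕ, M ≤ N ∧ 0 < N ∧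
        C * (N : ℝ) ^ (-1 + δ) ≤ ‖∑ n ∈ Finset.Icc 1 N, f n‖ := by
  intro f h1 hm _
  by_contra hcon
  push Not at hcon
  have hf := CM_toA h1 hm
  have hS : ∀ δ : ℝ, 0 < δ → ∃ C : ℝ, 0 < C ∧ ∃ M : ℕ, ∀ N : ℕ, M ≤ N → 0 < N →
      ‖∑ n ∈ Finset.Icc 1 N, toA f n‖ ≤ C * (N : ℝ) ^ (-1 + δ) := by
    intro δ hδ
    obtain ⟨C, M, h⟩ := hcon δ hδ
    refine ⟨max C 1, lt_max_of_lt_right one_pos, M, fun N hMN hN => ?_⟩
    rw [sum_toA]
    refine (h N hMN hN).le.trans ?_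
    exact mul_le_mul_of_nonneg_right (le_max_left _ _) (by positivity)
  -- the values at the primes are at most `1/p`
  have hp : ∀ p : ℕ, p.Prime → (p : ℝ) * ‖toA f p‖ ≤ 1 := by
    intro p hp
    by_contra hlt
    push Not at hlt
    have hp0 : (0 : ℝ) < p := by exact_mod_cast hp.pos
    have hp1 : (1 : ℝ) < p := by exact_mod_cast hp.one_lt
    have hlogp : 0 < Real.log p := Real.log_pos hp1
    set a : ℝ := (p : ℝ) * ‖toA f p‖ with ha
    have hloga : 0 < Real.log a := Real.log_pos hlt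
    have ha0 : 0 < a := by linarith
    obtain ⟨δ, hδ0, hδ1, hδ2⟩ : ∃ δ : ℝ, 0 < δ ∧ δ < 1 ∧ (p : ℝ) ^ δ < a := by
      refine ⟨min (1 / 2) (Real.log a / Real.log p / 2), by positivity,
        (min_le_left _ _).trans_lt (by norm_num), ?_⟩
      refine (Real.rpow_le_rpow_of_exponent_le hp1.le (min_le_right _ _)).trans_lt ?_
      rw [← Real.exp_log hp0, ← Real.exp_mul, ← Real.lt_log_iff_exp_lt ha0, Real.log_exp]
      have : Real.log p * (Real.log a / Real.log p / 2) = Real.log a / 2 := by field_simp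
      rw [this]; linarith
    obtain ⟨C, hC, M, hM⟩ := hS δ hδ0
    set b : ℝ := a / (p : ℝ) ^ δ with hb
    have hpd : 0 < (p : ℝ) ^ δ := Real.rpow_pos_of_pos hp0 _
    have hb1 : 1 < b := (one_lt_div hpd).mpr hδ2
    -- `b^k ≤ 3 C` for all large `k`
    have hkey : ∀ k : ℕ, M + 1 ≤ k → b ^ k ≤ 3 * C := by
      intro k hk
      have hk1 : 1 ≤ k := by omega
      have hpk : k < p ^ k := Nat.lt_pow_self hp.one_lt
      have hn2 : 2 ≤ p ^ k := by
        calc 2 ≤ p := hp.two_le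
          _ = p ^ 1 := (pow_one p).symm
          _ ≤ p ^ k := Nat.pow_le_pow_right hp.pos hk1
      set n : ℕ := p ^ k with hn
      have e1 : toA f n = ∑ j ∈ Finset.Icc 1 n, toA f j - ∑ j ∈ Finset.Icc 1 (n - 1), toA f j := by
        obtain ⟨m, hm'⟩ : ∃ m, n = m + 1 := ⟨n - 1, by omega⟩
        rw [hm', Finset.sum_Icc_succ_top (by omega), Nat.add_sub_cancel]; ring
      have hn0 : (0 : ℝ) < n := by exact_mod_cast (by omega : 0 < n)
      have e2 : ‖toA f n‖ ≤ C * (n : ℝ) ^ (-1 + δ) + C * ((n - 1 : ℕ) : ℝ) ^ (-1 + δ) := by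
        rw [e1]
        exact (norm_sub_le _ _).trans (add_le_add (hM n (by omega) (by omega))
          (hM (n - 1) (by omega) (by omega)))
      have e3 : ((n - 1 : ℕ) : ℝ) ^ (-1 + δ) ≤ 2 * (n : ℝ) ^ (-1 + δ) := by
        have h5 : (n : ℝ) / 2 ≤ ((n - 1 : ℕ) : ℝ) := by
          rw [Nat.cast_sub (by omega), Nat.cast_one]
          have : (2 : ℝ) ≤ n := by exact_mod_cast hn2
          linarith
        refine (Real.rpow_le_rpow_of_nonpos (by positivity) h5 (by linarith)).trans ?_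
        rw [Real.div_rpow hn0.le (by norm_num), div_eq_mul_inv, mul_comm]
        refine mul_le_mul_of_nonneg_right ?_ (by positivity)
        rw [← Real.rpow_neg (by norm_num)]
        calc (2 : ℝ) ^ (-(-1 + δ)) ≤ 2 ^ (1 : ℝ) :=
              Real.rpow_le_rpow_of_exponent_le (by norm_num) (by linarith)
          _ = 2 := Real.rpow_one 2
      have e4 : ‖toA f n‖ ≤ 3 * C * (n : ℝ) ^ (-1 + δ) := by nlinarith
      have e5 : ‖toA f n‖ = ‖toA f p‖ ^ k := by rw [hn, hf.pow, norm_pow]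
      have e6 : (n : ℝ) ^ (-1 + δ) = ((p : ℝ) ^ δ / p) ^ k := by
        rw [hn, Nat.cast_pow, ← Real.rpow_natCast, ← Real.rpow_mul hp0.le, mul_comm,
          Real.rpow_mul hp0.le, Real.rpow_natCast, Real.rpow_add hp0, Real.rpow_neg_one]
        congr 1
        rw [mul_comm, div_eq_mul_inv]
      rw [e5, e6] at e4
      have e7 : ‖toA f p‖ = b * ((p : ℝ) ^ δ / p) := by
        rw [hb, ha]; field_simp
      rw [e7, mul_pow] at e4
      exact le_of_mul_le_mul_right e4 (by positivity)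
    obtain ⟨k, hk1, hk2⟩ := ((tendsto_pow_atTop_atTop_of_one_lt hb1).eventually_gt_atTop
      (3 * C)).and (eventually_ge_atTop (M + 1)) |>.exists
    exact absurd (hkey k hk2) (not_le.mpr hk1)
  -- and now `S = O(N^{-3/4})` contradicts the core theorem
  obtain ⟨C, hC, M, hM⟩ := hS (1 / 4) (by norm_num)
  refine core' hf hp ?_
  have hlim : Tendsto (fun N : ℕ => C * (N : ℝ) ^ (-(1 / 4) : ℝ)) atTop (𝓝 0) := by
    have := ((tendsto_rpow_neg_atTop (y := 1 / 4) (by norm_num)).comp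
      tendsto_natCast_atTop_atTop).const_mul C
    simpa using this
  refine squeeze_zero' (Eventually.of_forall fun N => by positivity) ?_ hlim
  filter_upwards [eventually_ge_atTop (M + 1)] with N hN
  have hN0 : (0 : ℝ) < N := by exact_mod_cast (by omega : 0 < N)
  have h5 := hM N (by omega) (by omega)
  calc Real.sqrt N * ‖∑ k ∈ Finset.Icc 1 N, toA f k‖
      ≤ Real.sqrt N * (C * (N : ℝ) ^ (-1 + 1 / 4 : ℝ)) :=
        mul_le_mul_of_nonneg_left h5 (Real.sqrt_nonneg _)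
    _ = C * ((N : ℝ) ^ (1 / 2 : ℝ) * (N : ℝ) ^ (-1 + 1 / 4 : ℝ)) := by
        rw [Real.sqrt_eq_rpow]; ring
    _ = C * (N : ℝ) ^ (-(1 / 4) : ℝ) := by
        rw [← Real.rpow_add hN0]; norm_num

end Pool.Agent.T2h95.Kept.PowerSaving
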