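import Pool.Agent.T2h95.QR.RotMain

set_option autoImplicit false
open Polynomial
open Pool.Agent.T2h95.QR

namespace Pool.Agent.T2h95.Kept.RotationSymmetric

/-- For `0 < |q| ≤ 4/5` (exactly the range where `c(q) = 1`): if a rotation of `ℂ` about some
point `l`, of order other than `1` and `2`, is implemented on `A` by a unitary, that is
`U* (A - l) U = ω (A - l)` with `ω ≠ 1, -1`, then `Ω_q` is a spectral set for `A`. -/
theorem result (n : ℕ) (hn : 2 ≤ n) (A U : Matrix (Fin n) (Fin n) ℂ) (l ω : ℂ)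
    (hU : U ∈ Matrix.unitaryGroup (Fin n) ℂ) (hω1 : ω ≠ 1) (hω2 : ω ≠ -1)
    (hAU : star U * (A - l • (1 : Matrix (Fin n) (Fin n) ℂ)) * U =
      ω • (A - l • (1 : Matrix (Fin n) (Fin n) ℂ)))
    (q : ℂ) (hq0 : 0 < ‖q‖) (hq : ‖q‖ ≤ 4 / 5)
    (p : ℂ[X]) (M : ℝ) (hM : ∀ z ∈ Omega A q, ‖p.eval z‖ ≤ M) :
    opNorm (aeval A p) ≤ M := by
  refine rot_q hn A U l ω hU hω1 hω2 ?_ (norm_pos_iff.mp hq0) hq p M hM
  have h1 : U * (star U * (A - l • (1 : Matrix (Fin n) (Fin n) ℂ)) * U) =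
      (A - l • (1 : Matrix (Fin n) (Fin n) ℂ)) * U := by
    rw [← mul_assoc, ← mul_assoc, Matrix.mem_unitaryGroup_iff.mp hU, one_mul]
  rw [← h1, hAU, mul_smul_comm]

end Pool.Agent.T2h95.Kept.RotationSymmetric
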