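import Pool.Agent.T2h95.CMO.Main

set_option autoImplicit false
open Filter Topology
open Pool.Agent.T2h95.CMO

namespace Pool.Agent.T2h95.Kept.SmallExcess

/-- The Kahane–Saïas lower bound `S_f(x) = Ω(x^{-1/2})` for every CMO function `f` with
`∑_p max(p|f(p)| - 1, 0) / √p < ∞`, in particular for every CMO function with `|f(p)| ≤ 1/p`
for all primes `p` (or for all but finitely many). -/
theorem result :
    ∀ f : ℕ → ℂ,
      f 1 = 1 →
      (∀ m n : ℕ, 0 < m → 0 < n → f (m * n) = f m * f n) →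
      Tendsto (fun N : ℕ => ∑ n ∈ Finset.range N, f (n + 1)) atTop (𝓝 0) →
      (Summable fun p : Nat.Primes => max ((p : ℝ) * ‖f p‖ - 1) 0 / Real.sqrt p) →
      ∃ c : ℝ, 0 < c ∧ ∀ M : ℕ, ∃ N : ℕ, M ≤ N ∧ 0 < N ∧
        c / Real.sqrt (N : ℝ) ≤ ‖∑ n ∈ Finset.Icc 1 N, f n‖ := by
  intro f h1 hm _ he
  by_contra hcon
  have h := tendsto_of_not hcon
  refine excess_core (CM_toA h1 hm) ?_ ?_
  · refine he.congr fun p => ?_
    rw [toA_apply f p.2.ne_zero]
  · simpa only [sum_toA] using h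

end Pool.Agent.T2h95.Kept.SmallExcess
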