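import Pool.Agent.T2h95.QR.Main

set_option autoImplicit false
open Polynomial
open Pool.Agent.T2h95.QR

namespace Pool.Agent.T2h95.Kept.SmallQ

/-- For `0 < |q| ≤ 1/√2` (where `c(q) = 1`) the scaled `q`-numerical range `Ω_q` of every
`n × n` matrix `A`, `n ≥ 2`, is a spectral set for `A`: if `|p| ≤ M` on `Ω_q` then
`‖p(A)‖ ≤ M`. -/
theorem result (n : ℕ) (hn : 2 ≤ n) (A : Matrix (Fin n) (Fin n) ℂ) (q : ℂ) (hq0 : 0 < ‖q‖)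
    (hq : ‖q‖ ≤ 1 / Real.sqrt 2) (p : ℂ[X]) (M : ℝ) (hM : ∀ z ∈ Omega A q, ‖p.eval z‖ ≤ M) :
    opNorm (aeval A p) ≤ M := by
  refine small_q hn A (norm_pos_iff.mp hq0) ?_ p M hM
  have h1 : ‖q‖ ^ 2 ≤ (1 / Real.sqrt 2) ^ 2 := pow_le_pow_left₀ hq0.le hq 2
  rw [div_pow, Real.sq_sqrt (by norm_num)] at h1
  simpa using h1

end Pool.Agent.T2h95.Kept.SmallQ
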